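import Mathlib

/-!
# Counting lemmas for powers modulo powers of two
-/

set_option autoImplicit false

namespace Pool.Agent.Lib.MP_8fac0f_nt.OV

open Finset

/-- Many odd `m` for which `A m` lies in a given interval modulo `2 ^ W`. -/
theorem lower_count (A α A' W μ lo hi M : ℕ) (hA : A = 2 ^ α * A') (hA' : Odd A') (hW : 1 ≤ W)
    (hM : M = 2 ^ (μ + W)) (hhi : hi ≤ 2 ^ W) (hlo : lo ≤ hi) :
    2 ^ μ * ((hi - lo) / 2 ^ (α + 1) - 1) ≤
      ((Ico M (2 * M)).filter fun m => Odd m ∧ lo ≤ A * m % 2 ^ W ∧ A * m % 2 ^ W < hi).card := by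
  set K := (hi - lo) / 2 ^ (α + 1) - 1 with hK
  rcases Nat.eq_zero_or_pos K with hK0 | hK0
  · rw [hK0, mul_zero]; exact Nat.zero_le _
  obtain ⟨I, hI⟩ : ∃ I, I * A' % 2 ^ W = 1 := by
    have hcop : Nat.Coprime A' (2 ^ W) := (Nat.coprime_two_right.2 hA').pow_right W
    obtain ⟨I, -, hI⟩ := Nat.exists_mul_mod_eq_one_of_coprime hcop
      (Nat.one_lt_two_pow (by omega))
    exact ⟨I, by rw [mul_comm]; exact hI⟩
  have hp : 0 < 2 ^ (α + 1) := by positivity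
  set j0 := lo / 2 ^ (α + 1) + 1 with hj0
  set u : ℕ → ℕ := fun j => 2 * (j0 + j) + 1 with hu
  have hub : ∀ j, j < K → lo ≤ 2 ^ α * u j ∧ 2 ^ α * u j < hi := fun j hj => by
    have e1 : 2 ^ α * u j = 2 ^ (α + 1) * (j0 + j) + 2 ^ α := by
      simp only [hu, pow_succ]; ring
    have e2 := Nat.div_add_mod lo (2 ^ (α + 1))
    have e3 := Nat.mod_lt lo hp
    have e4 : 2 ^ (α + 1) * j0 = 2 ^ (α + 1) * (lo / 2 ^ (α + 1)) + 2 ^ (α + 1) := by
      rw [hj0, mul_add, mul_one]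
    have e5 : 2 ^ (α + 1) * (j0 + j) = 2 ^ (α + 1) * j0 + 2 ^ (α + 1) * j := by ring
    have e6 := Nat.div_mul_le_self (hi - lo) (2 ^ (α + 1))
    have e7 : 2 ^ (α + 1) * (j + 2) ≤ hi - lo := by
      refine le_trans ?_ e6
      rw [mul_comm]
      exact Nat.mul_le_mul_right _ (by omega)
    have e8 : 2 ^ (α + 1) * (j + 2) = 2 ^ (α + 1) * j + 2 * 2 ^ (α + 1) := by ring
    have e9 : 2 ^ α < 2 ^ (α + 1) := Nat.pow_lt_pow_right (by norm_num) (Nat.lt_succ_self α)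
    rw [e1, e5, e4]
    constructor
    · omega
    · omega
  have hulow : ∀ j, j < K → u j < 2 ^ W := fun j hj => by
    have h1 := (hub j hj).2
    have h2 : u j ≤ 2 ^ α * u j := Nat.le_mul_of_pos_left _ (by positivity)
    omega
  set f : ℕ × ℕ → ℕ := fun p => M + 2 ^ W * p.1 + (I * u p.2) % 2 ^ W with hf
  have hMW : 2 ^ W ∣ M := by rw [hM]; exact pow_dvd_pow 2 (by omega)
  have h2W : 2 ∣ 2 ^ W := dvd_pow_self 2 (by omega)
  have hmain : ∀ p : ℕ × ℕ, p.2 < K → A * f p % 2 ^ W = 2 ^ α * u p.2 := fun p hp => by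
    have h1 : f p ≡ I * u p.2 [MOD 2 ^ W] := by
      have g1 : M ≡ 0 [MOD 2 ^ W] := Nat.modEq_zero_iff_dvd.2 hMW
      have g2 : 2 ^ W * p.1 ≡ 0 [MOD 2 ^ W] := Nat.modEq_zero_iff_dvd.2 (Dvd.intro _ rfl)
      have g3 : I * u p.2 % 2 ^ W ≡ I * u p.2 [MOD 2 ^ W] := Nat.mod_modEq _ _
      simpa using (g1.add g2).add g3
    have h2 : I * A' ≡ 1 [MOD 2 ^ W] := by
      change I * A' % 2 ^ W = 1 % 2 ^ W
      rw [hI, Nat.mod_eq_of_lt (Nat.one_lt_two_pow (by omega))]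
    have h3 : A * f p ≡ 2 ^ α * u p.2 [MOD 2 ^ W] := by
      calc A * f p ≡ A * (I * u p.2) [MOD 2 ^ W] := h1.mul_left A
        _ = 2 ^ α * u p.2 * (I * A') := by rw [hA]; ring
        _ ≡ 2 ^ α * u p.2 * 1 [MOD 2 ^ W] := h2.mul_left _
        _ = 2 ^ α * u p.2 := mul_one _
    have h4 : 2 ^ α * u p.2 < 2 ^ W := lt_of_lt_of_le (hub _ hp).2 hhi
    have h5 : A * f p % 2 ^ W = (2 ^ α * u p.2) % 2 ^ W := h3
    rw [h5, Nat.mod_eq_of_lt h4]
  have hIodd : Odd I := by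
    by_contra hcon
    have hIe : 2 ∣ I := (Nat.not_odd_iff_even.1 hcon).two_dvd
    have h1 : 2 ∣ I * A' % 2 ^ W := (Nat.dvd_mod_iff h2W).2 (hIe.mul_right A')
    rw [hI] at h1
    omega
  have hsub : (range (2 ^ μ) ×ˢ range K).image f ⊆
      (Ico M (2 * M)).filter fun m => Odd m ∧ lo ≤ A * m % 2 ^ W ∧ A * m % 2 ^ W < hi := by
    intro x hx
    obtain ⟨p, hp, rfl⟩ := mem_image.1 hx
    have hp1 := mem_range.1 (mem_product.1 hp).1
    have hp2 := mem_range.1 (mem_product.1 hp).2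
    have hr : (I * u p.2) % 2 ^ W < 2 ^ W := Nat.mod_lt _ (by positivity)
    refine mem_filter.2 ⟨mem_Ico.2 ⟨?_, ?_⟩, ?_, ?_, ?_⟩
    · simp only [hf]; omega
    · have h1 : 2 ^ W * (p.1 + 1) ≤ 2 ^ W * 2 ^ μ := Nat.mul_le_mul_left _ hp1
      have h2 : 2 ^ W * 2 ^ μ = M := by rw [hM, pow_add, mul_comm]
      rw [mul_add, mul_one, h2] at h1
      simp only [hf]; omega
    · have h1 : Even (M + 2 ^ W * p.1) :=
        (even_iff_two_dvd.2 (h2W.trans hMW)).add (even_iff_two_dvd.2 (h2W.mul_right _))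
      have h2 : Odd ((I * u p.2) % 2 ^ W) := by
        have h3 : Odd (I * u p.2) := hIodd.mul ⟨j0 + p.2, rfl⟩
        by_contra hcon
        have h4 : 2 ∣ (I * u p.2) % 2 ^ W := (Nat.not_odd_iff_even.1 hcon).two_dvd
        have h5 : 2 ∣ I * u p.2 := (Nat.dvd_mod_iff h2W).1 h4
        exact (Nat.not_even_iff_odd.2 h3) (even_iff_two_dvd.2 h5)
      exact h1.add_odd h2
    · rw [hmain p hp2]; exact (hub _ hp2).1
    · rw [hmain p hp2]; exact (hub _ hp2).2
  have hinj : Set.InjOn f ((range (2 ^ μ) ×ˢ range K : Finset (ℕ × ℕ)) : Set (ℕ × ℕ)) := by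
    intro p hp q hq hpq
    have hp2 := mem_range.1 (mem_product.1 (mem_coe.1 hp)).2
    have hq2 := mem_range.1 (mem_product.1 (mem_coe.1 hq)).2
    have h1 := hmain p hp2
    rw [hpq, hmain q hq2] at h1
    have h2 : u q.2 = u p.2 := Nat.eq_of_mul_eq_mul_left (by positivity) h1
    have h3 : q.2 = p.2 := by
      simp only [hu] at h2
      omega
    have h4 : M + 2 ^ W * p.1 + (I * u p.2) % 2 ^ W = M + 2 ^ W * q.1 + (I * u q.2) % 2 ^ W := hpq
    rw [h2] at h4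
    have h5 : p.1 = q.1 := Nat.eq_of_mul_eq_mul_left (by positivity : 0 < 2 ^ W) (by omega)
    exact Prod.ext h5 h3.symm
  calc 2 ^ μ * K = (range (2 ^ μ) ×ˢ range K).card := by rw [card_product, card_range, card_range]
    _ = ((range (2 ^ μ) ×ˢ range K).image f).card := (card_image_of_injOn hinj).symm
    _ ≤ _ := card_le_card hsub

/-- The key divisibility. -/
theorem key_dvd (A g l d w v : ℕ) (hA : ¬ 2 ^ g ∣ A) (hl : 1 ≤ l) (hld : l < 2 ^ d)
    (hwv : v + d ≤ w) (hwg : g + d ≤ w) (m m' : ℕ) (hm : Odd m) (hmm : m ≡ m' [MOD 2 ^ (w - v)])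
    (hc : A * m ^ l ≡ A * m' ^ l [MOD 2 ^ w]) : m ≡ m' [MOD 2 ^ (w - (g + d))] := by
  have hA0 : A ≠ 0 := by rintro rfl; exact hA (dvd_zero _)
  obtain ⟨α, A', hA', hAe⟩ := Nat.exists_eq_two_pow_mul_odd hA0
  obtain ⟨β, l', hl', hle⟩ := Nat.exists_eq_two_pow_mul_odd (by omega : l ≠ 0)
  have hα : α < g := by
    by_contra hcon
    exact hA (hAe ▸ (pow_dvd_pow 2 (not_lt.1 hcon)).mul_right A')
  have hβ : β < d := by
    by_contra hcon
    have h1 : 2 ^ d ≤ 2 ^ β := Nat.pow_le_pow_right (by norm_num) (not_lt.1 hcon)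
    have h2 : 2 ^ β ≤ l := by
      rw [hle]; exact Nat.le_mul_of_pos_right _ hl'.pos
    omega
  rw [← Int.natCast_modEq_iff] at hmm hc ⊢
  have d1 : ((2 ^ (w - v) : ℕ) : ℤ) ∣ (m' : ℤ) - m := hmm.dvd
  have d2 : ((2 ^ w : ℕ) : ℤ) ∣ ((A * m' ^ l : ℕ) : ℤ) - ((A * m ^ l : ℕ) : ℤ) := hc.dvd
  push_cast at d1 d2
  have hgs := (Commute.all (m' : ℤ) (m : ℤ)).geom_sum₂_mul l
  set S : ℤ := ∑ i ∈ range l, (m' : ℤ) ^ i * (m : ℤ) ^ (l - 1 - i) with hS
  have hSmod : (2 : ℤ) ^ (w - v) ∣ S - l * (m : ℤ) ^ (l - 1) := by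
    have e1 : (l : ℤ) * (m : ℤ) ^ (l - 1) = ∑ i ∈ range l, (m : ℤ) ^ i * (m : ℤ) ^ (l - 1 - i) := by
      have : ∀ i ∈ range l, (m : ℤ) ^ i * (m : ℤ) ^ (l - 1 - i) = (m : ℤ) ^ (l - 1) := fun i hi => by
        have := mem_range.1 hi
        rw [← pow_add]; congr 1; omega
      rw [sum_congr rfl this]
      simp
    rw [e1, hS, ← sum_sub_distrib]
    refine dvd_sum fun i _ => ?_
    rw [← sub_mul]
    exact (d1.trans (sub_dvd_pow_sub_pow (m' : ℤ) (m : ℤ) i)).mul_right _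
  obtain ⟨z, hz⟩ := hSmod
  obtain ⟨t, ht⟩ : ∃ t, w - v = β + (t + 1) := ⟨w - v - β - 1, by omega⟩
  have hS2 : S = 2 ^ β * (l' * (m : ℤ) ^ (l - 1) + 2 ^ (t + 1) * z) := by
    have e1 : S = l * (m : ℤ) ^ (l - 1) + 2 ^ (w - v) * z := by linarith
    have e2 : ((l : ℕ) : ℤ) = 2 ^ β * l' := by
      conv_lhs => rw [hle]
      push_cast; rfl
    rw [e1, ht, e2, pow_add]
    ring
  have hodd : Odd ((l' : ℤ) * (m : ℤ) ^ (l - 1) + 2 ^ (t + 1) * z) := by
    have h1 : Odd ((l' : ℤ) * (m : ℤ) ^ (l - 1)) := by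
      have hm' : Odd (m : ℤ) := by exact_mod_cast hm
      have hl'' : Odd (l' : ℤ) := by exact_mod_cast hl'
      exact hl''.mul (hm'.pow)
    have h2 : Even ((2 : ℤ) ^ (t + 1) * z) := by
      rw [pow_succ]
      exact ⟨2 ^ t * z, by ring⟩
    exact h1.add_even h2
  have d3 : (2 : ℤ) ^ w ∣ 2 ^ (α + β) *
      (((A' : ℤ) * ((l' : ℤ) * (m : ℤ) ^ (l - 1) + 2 ^ (t + 1) * z)) * ((m' : ℤ) - m)) := by
    have e1 : (A : ℤ) * (m' : ℤ) ^ l - (A : ℤ) * (m : ℤ) ^ l =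
        2 ^ (α + β) * (((A' : ℤ) * ((l' : ℤ) * (m : ℤ) ^ (l - 1) + 2 ^ (t + 1) * z)) *
          ((m' : ℤ) - m)) := by
      have e2 : ((A : ℕ) : ℤ) = 2 ^ α * A' := by
        conv_lhs => rw [hAe]
        push_cast; rfl
      rw [← mul_sub, ← hgs, hS2, e2, pow_add]
      ring
    rw [← e1]; exact d2
  have hw : w = (α + β) + (w - (α + β)) := by omega
  rw [hw, pow_add] at d3
  have d4 := (mul_dvd_mul_iff_left (by positivity : (2 : ℤ) ^ (α + β) ≠ 0)).1 d3
  have hcop : IsCoprime ((2 : ℤ) ^ (w - (α + β)))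
      ((A' : ℤ) * ((l' : ℤ) * (m : ℤ) ^ (l - 1) + 2 ^ (t + 1) * z)) := by
    refine IsCoprime.pow_left ?_
    have hA'' : Odd (A' : ℤ) := by exact_mod_cast hA'
    exact (Int.isCoprime_two_left).2 (hA''.mul hodd)
  have d5 := hcop.dvd_of_dvd_mul_left d4
  refine (Int.modEq_iff_dvd).2 ?_
  push_cast
  exact (pow_dvd_pow 2 (by omega)).trans d5

/-- Few odd `m` for which the top digits of `A m ^ l` below `2 ^ w` are all equal to one. -/
theorem bad_count (A g l d w v μ : ℕ) (hA : ¬ 2 ^ g ∣ A) (hl : 1 ≤ l) (hld : l < 2 ^ d)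
    (hwv : v + d ≤ w) (hwg : g + d ≤ w) (hμ : w ≤ μ) :
    ((range (2 ^ μ)).filter fun m => Odd m ∧ 2 ^ w ≤ A * m ^ l % 2 ^ w + 2 ^ (w - v)).card ≤
      2 ^ (w - v) * 2 ^ (μ - (w - (g + d))) := by
  have hcard : (range (2 ^ (w - v)) ×ˢ range (2 ^ (μ - (w - (g + d))))).card =
      2 ^ (w - v) * 2 ^ (μ - (w - (g + d))) := by
    rw [card_product, card_range, card_range]
  rw [← hcard]
  refine card_le_card_of_injOn (fun m => (m % 2 ^ (w - v), m / 2 ^ (w - (g + d)))) ?_ ?_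
  · intro m hm
    have hm1 := mem_range.1 (mem_filter.1 (mem_coe.1 hm)).1
    refine mem_coe.2 (mem_product.2 ⟨mem_range.2 (Nat.mod_lt _ (by positivity)),
      mem_range.2 ?_⟩)
    rw [Nat.div_lt_iff_lt_mul (by positivity), ← pow_add]
    have : μ - (w - (g + d)) + (w - (g + d)) = μ := by omega
    rwa [this]
  · intro m hm m' hm' hmm
    have hm2 := (mem_filter.1 (mem_coe.1 hm)).2
    have hm2' := (mem_filter.1 (mem_coe.1 hm')).2
    have h1 : m % 2 ^ (w - v) = m' % 2 ^ (w - v) := (Prod.ext_iff.1 hmm).1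
    have h2 : m / 2 ^ (w - (g + d)) = m' / 2 ^ (w - (g + d)) := (Prod.ext_iff.1 hmm).2
    have h3 : A * m ^ l ≡ A * m' ^ l [MOD 2 ^ (w - v)] := (Nat.ModEq.pow l h1).mul_left A
    have h4 : A * m ^ l ≡ A * m' ^ l [MOD 2 ^ w] := by
      change A * m ^ l % 2 ^ w = A * m' ^ l % 2 ^ w
      have g1 : 2 ^ (w - v) ∣ 2 ^ w := pow_dvd_pow 2 (by omega)
      have g2 : A * m ^ l % 2 ^ w % 2 ^ (w - v) = A * m' ^ l % 2 ^ w % 2 ^ (w - v) := by
        rw [Nat.mod_mod_of_dvd _ g1, Nat.mod_mod_of_dvd _ g1]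
        exact h3
      have g3 : A * m ^ l % 2 ^ w < 2 ^ w := Nat.mod_lt _ (by positivity)
      have g4 : A * m' ^ l % 2 ^ w < 2 ^ w := Nat.mod_lt _ (by positivity)
      have g5 := hm2.2
      have g6 := hm2'.2
      have g7 := Nat.div_add_mod (A * m ^ l % 2 ^ w) (2 ^ (w - v))
      have g8 := Nat.div_add_mod (A * m' ^ l % 2 ^ w) (2 ^ (w - v))
      obtain ⟨q, hq⟩ := g1
      have g9 : ∀ x, x < 2 ^ w → 2 ^ w ≤ x + 2 ^ (w - v) → x / 2 ^ (w - v) = q - 1 := by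
        intro x hx1 hx2
        have hp : 0 < 2 ^ (w - v) := by positivity
        have hq0 : 0 < q := by
          rcases Nat.eq_zero_or_pos q with h | h
          · rw [h, mul_zero] at hq
            have : 0 < 2 ^ w := by positivity
            omega
          · exact h
        obtain ⟨q', hq'⟩ : ∃ q', q = q' + 1 := ⟨q - 1, by omega⟩
        rw [hq', Nat.add_sub_cancel]
        rw [hq'] at hq
        have e1 : 2 ^ (w - v) * (q' + 1) = 2 ^ (w - v) * q' + 2 ^ (w - v) := by ring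
        refine Nat.div_eq_of_lt_le ?_ ?_
        · rw [mul_comm]; omega
        · rw [mul_comm]; omega
      rw [g9 _ g3 g5] at g7
      rw [g9 _ g4 g6] at g8
      omega
    have h5 := key_dvd A g l d w v hA hl hld hwv hwg m m' hm2.1 h1 h4
    have h6 := Nat.div_add_mod m (2 ^ (w - (g + d)))
    have h7 := Nat.div_add_mod m' (2 ^ (w - (g + d)))
    have h8 : m % 2 ^ (w - (g + d)) = m' % 2 ^ (w - (g + d)) := h5
    rw [h2, h8] at h6
    omega

/-- Few arguments at which a rapidly increasing function is close below a multiple of `X`. -/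
theorem near_count (c : ℕ → ℕ) (M X L γ Bm : ℕ) (hX : 0 < X) (hγ : 0 < γ)
    (hc : ∀ m m', M ≤ m → m < m' → m' < 2 * M → c m + γ ≤ c m')
    (hB : ∀ m, m < 2 * M → c m / X < Bm) :
    ((Ico M (2 * M)).filter fun m => X < c m % X + L).card ≤ Bm * (L / γ + 1) := by
  have hcard : (range Bm ×ˢ range (L / γ + 1)).card = Bm * (L / γ + 1) := by
    rw [card_product, card_range, card_range]
  rw [← hcard]
  refine card_le_card_of_injOn (fun m => (c m / X, (c m % X + L - X) / γ)) ?_ ?_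
  · intro m hm
    have hm' := mem_filter.1 (mem_coe.1 hm)
    have hm1 := mem_Ico.1 hm'.1
    refine mem_coe.2 (mem_product.2 ⟨mem_range.2 (hB m hm1.2), mem_range.2 ?_⟩)
    refine Nat.lt_succ_of_le (Nat.div_le_div_right ?_)
    have := Nat.mod_lt (c m) hX
    omega
  · intro m hm m' hm' hmm
    have hm := mem_filter.1 (mem_coe.1 hm)
    have hm' := mem_filter.1 (mem_coe.1 hm')
    have h1 : c m / X = c m' / X := (Prod.ext_iff.1 hmm).1
    have h2 : (c m % X + L - X) / γ = (c m' % X + L - X) / γ := (Prod.ext_iff.1 hmm).2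
    have key : ∀ a b, a < b → M ≤ a → b < 2 * M → X < c a % X + L → c a / X = c b / X →
        (c a % X + L - X) / γ = (c b % X + L - X) / γ → False := by
      intro a b hab ha hb hXa e1 e2
      have e3 := hc a b ha hab hb
      have e4 := Nat.div_add_mod (c a) X
      have e5 := Nat.div_add_mod (c b) X
      rw [e1] at e4
      have e6 : c a % X + γ ≤ c b % X := by omega
      have e7 : (c a % X + L - X) + γ ≤ c b % X + L - X := by omega
      have e8 : (c a % X + L - X + γ) / γ ≤ (c b % X + L - X) / γ := Nat.div_le_div_right e7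
      rw [Nat.add_div_right _ hγ] at e8
      omega
    have hma := mem_Ico.1 hm.1
    have hmb := mem_Ico.1 hm'.1
    rcases lt_trichotomy m m' with h | h | h
    · exact (key m m' h hma.1 hmb.2 hm.2 h1 h2).elim
    · exact h
    · exact (key m' m h hmb.1 hma.2 hm'.2 h1.symm h2.symm).elim

end Pool.Agent.Lib.MP_8fac0f_nt.OV
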