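import Pool.Agent.Lib.MP_8fac0f_nt.OV.Zone
import Pool.Agent.Lib.MP_8fac0f_nt.OV.Cnt
import Pool.Agent.Lib.MP_8fac0f_nt.Shift
import Pool.Agent.Lib.MP_8fac0f_nt.Span

/-!
# Good pairs
-/

set_option autoImplicit false

namespace Pool.Agent.Lib.MP_8fac0f_nt.OV

open Finset Polynomial N

/-- The value of the `l`-th divided derivative. -/
noncomputable def hs (P : ℕ[X]) (l x : ℕ) : ℕ := (hasseDeriv l P).eval x

theorem hs_lower (P : ℕ[X]) (d l x : ℕ) (hd : P.natDegree = d) (hd1 : 1 ≤ d) (hl : l ≤ d) :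
    x ^ (d - l) ≤ hs P l x := by
  unfold hs
  have hdeg : (hasseDeriv l P).natDegree < d - l + 1 := by
    rw [natDegree_hasseDeriv]; omega
  rw [eval_eq_sum_range' hdeg]
  have h1 : 1 ≤ (hasseDeriv l P).coeff (d - l) := by
    rw [hasseDeriv_coeff]
    have e1 : d - l + l = d := by omega
    rw [e1]
    have h2 : P.coeff d ≠ 0 := by
      rw [← hd]
      exact leadingCoeff_ne_zero.2 (by rintro rfl; simp at hd; omega)
    have h3 : 0 < d.choose l := Nat.choose_pos hl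
    exact Nat.mul_pos (by exact_mod_cast h3) (Nat.pos_of_ne_zero h2)
  calc x ^ (d - l) = 1 * x ^ (d - l) := (one_mul _).symm
    _ ≤ (hasseDeriv l P).coeff (d - l) * x ^ (d - l) := Nat.mul_le_mul_right _ h1
    _ ≤ _ := single_le_sum (f := fun i => (hasseDeriv l P).coeff i * x ^ i)
        (fun i _ => Nat.zero_le _) (mem_range.2 (Nat.lt_succ_self _))

theorem hs_one (P : ℕ[X]) (d l : ℕ) (hd : P.natDegree = d) (hl : l ≤ d) :
    hs P l 1 ≤ P.eval 2 := by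
  have h1 := eval_shift P d hd.le 1 1
  have h2 : P.eval (1 + 1) = P.eval 2 := rfl
  rw [h2] at h1
  rw [h1]
  have := single_le_sum (f := fun l => (hasseDeriv l P).eval 1 * 1 ^ l)
    (fun i _ => Nat.zero_le _) (mem_range.2 (Nat.lt_succ_of_le hl))
  simpa [hs] using this

theorem hs_upper (P : ℕ[X]) (d l x : ℕ) (hd : P.natDegree = d) (hl : l ≤ d) (hx : 1 ≤ x) :
    hs P l x ≤ P.eval 2 * x ^ (d - l) := by
  have h1 := eval_le_pow (hasseDeriv l P) (d - l) (by rw [natDegree_hasseDeriv]; omega) x hx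
  have h2 := hs_one P d l hd hl
  unfold hs at h2 ⊢
  calc (hasseDeriv l P).eval x ≤ x ^ (d - l) * (hasseDeriv l P).eval 1 := h1
    _ ≤ x ^ (d - l) * P.eval 2 := Nat.mul_le_mul_left _ h2
    _ = _ := mul_comm _ _

theorem hs_val (P : ℕ[X]) (d l x G : ℕ) (hd : P.natDegree = d) (hd1 : 1 ≤ d) (hl : l ≤ d)
    (hG : P.eval 2 < 2 ^ G) (hx : x ≡ 1 [MOD 2 ^ G]) : ¬ 2 ^ G ∣ hs P l x := by
  intro hdiv
  have h1 : hs P l x ≡ hs P l 1 [MOD 2 ^ G] := by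
    unfold hs
    rw [eval_eq_sum_range, eval_eq_sum_range]
    exact Nat.ModEq.sum fun i _ => (hx.pow i).mul_left _
  have h2 : 2 ^ G ∣ hs P l 1 := (h1.dvd_iff dvd_rfl).1 hdiv
  have h3 : 0 < hs P l 1 := by
    have := hs_lower P d l 1 hd hd1 hl
    rw [one_pow] at this
    omega
  have h4 := Nat.le_of_dvd h3 h2
  have h5 := hs_one P d l hd hl
  omega

/-- Good arguments. -/
def Gd (A : ℕ → ℕ) (d w v k L β α m : ℕ) : Prop :=
  Odd m ∧ 2 ^ (w + α) - β ≤ A 1 * m % 2 ^ (w + α + 2) ∧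
    A 1 * m % 2 ^ (w + α + 2) < 2 ^ (w + α) - β / 2 ∧
    (∀ l ∈ Icc 2 d, A l * m ^ l % 2 ^ w + 2 ^ (w - v) < 2 ^ w) ∧
    ∀ l ∈ Icc 1 (d - 1), A l * m ^ l % 2 ^ k + L ≤ 2 ^ k

theorem flip4 (A : ℕ → ℕ) (d w v k L β α A' g m : ℕ) (hd : 2 ≤ d) (hk : w + α + 2 ≤ k)
    (hA : A 1 = 2 ^ α * A') (hg : A' * g % 4 = 1) (hβ : β = A 0 / 2 ^ k) (hβw : β < 2 ^ w)
    (hB : ∀ l ∈ Icc 1 (d - 1), A l * m ^ l / 2 ^ k < 2 ^ (w - v))
    (hL : ∀ l ∈ Icc 1 (d - 1), A l * (m + 2 ^ w * g) ^ l + 2 ^ w ≤ A l * m ^ l + L)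
    (hG : Gd A d w v k L β α m) :
    sg (V (fun l => A l * m ^ l) k d) * sg (V (fun l => A l * m ^ l) (k + 1) d) =
      -(sg (V (fun l => A l * (m + 2 ^ w * g) ^ l) k d) *
        sg (V (fun l => A l * (m + 2 ^ w * g) ^ l) (k + 1) d)) := by
  obtain ⟨hodd, hlo, hhi, hlow, hnear⟩ := hG
  obtain ⟨n, rfl⟩ : ∃ n, d = n + 2 := ⟨d - 2, by omega⟩
  rw [two_scales, two_scales]
  simp only [pow_zero, mul_one]
  rw [← hβ]
  have p1 : 0 < 2 ^ w := by positivity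
  have hle : ∀ l, A l * m ^ l ≤ A l * (m + 2 ^ w * g) ^ l := fun l =>
    Nat.mul_le_mul_left _ (Nat.pow_le_pow_left (Nat.le_add_right _ _) l)
  -- the quotients
  have hq : ∀ l ∈ Icc 1 (n + 1), A l * m ^ l / 2 ^ k = A l * (m + 2 ^ w * g) ^ l / 2 ^ k ∧
      A l * (m + 2 ^ w * g) ^ l % 2 ^ k + 2 ^ w ≤ 2 ^ k ∧ A l * m ^ l % 2 ^ k + 2 ^ w ≤ 2 ^ k :=
    fun l hl => by
    have h1 := hnear l hl
    have h2 := hL l hl
    have h3 := hle l
    have h4 := Nat.div_add_mod (A l * m ^ l) (2 ^ k)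
    have h5 : A l * (m + 2 ^ w * g) ^ l / 2 ^ k = A l * m ^ l / 2 ^ k := by
      have e5 : (A l * m ^ l / 2 ^ k) * 2 ^ k = 2 ^ k * (A l * m ^ l / 2 ^ k) := mul_comm _ _
      have e6 : (A l * m ^ l / 2 ^ k + 1) * 2 ^ k = 2 ^ k * (A l * m ^ l / 2 ^ k) + 2 ^ k := by
        ring
      refine Nat.div_eq_of_lt_le ?_ ?_
      · rw [e5]
        omega
      · rw [e6]
        omega
    have h6 := Nat.div_add_mod (A l * (m + 2 ^ w * g) ^ l) (2 ^ k)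
    rw [h5] at h6
    refine ⟨h5.symm, ?_, ?_⟩ <;> omega
  have hlowmod : ∀ l, A l * m ^ l % 2 ^ w = A l * (m + 2 ^ w * g) ^ l % 2 ^ w := fun l => by
    have h1 : m + 2 ^ w * g ≡ m [MOD 2 ^ w] := by
      have : m + 2 ^ w * g ≡ m + 0 [MOD 2 ^ w] :=
        Nat.ModEq.add_left m (Nat.modEq_zero_iff_dvd.2 (Dvd.intro _ rfl))
      rwa [add_zero] at this
    exact ((h1.pow l).mul_left (A l)).symm
  -- the first block
  have pα : 0 < 2 ^ α := by positivity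
  have e1 : 2 ^ (w + α) = 2 ^ w * 2 ^ α := pow_add 2 w α
  have e2 : 2 ^ (w + α + 2) = 2 ^ w * 2 ^ (α + 2) := by rw [add_assoc, pow_add]
  have e3 : 2 ^ w * 2 ^ α = 2 ^ w * (2 ^ α - 1) + 2 ^ w := by
    obtain ⟨t, ht⟩ : ∃ t, 2 ^ α = t + 1 := ⟨2 ^ α - 1, by omega⟩
    rw [ht, Nat.add_sub_cancel]; ring
  set y := A 1 * m % 2 ^ (w + α + 2) with hy
  have hydiv : y / 2 ^ w = 2 ^ α - 1 := by
    have e4 : (2 ^ α - 1) * 2 ^ w = 2 ^ w * (2 ^ α - 1) := mul_comm _ _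
    have e5 : (2 ^ α - 1 + 1) * 2 ^ w = 2 ^ w * (2 ^ α - 1) + 2 ^ w := by ring
    refine Nat.div_eq_of_lt_le ?_ ?_
    · rw [e4]; omega
    · rw [e5]; omega
  have hymod : y % 2 ^ w = A 1 * m % 2 ^ w := by
    rw [hy, e2]
    exact Nat.mod_mod_of_dvd _ (Dvd.intro _ rfl)
  have hyy := Nat.div_add_mod y (2 ^ w)
  rw [hydiv, hymod] at hyy
  have hSy : A 1 * m / 2 ^ w % 2 ^ (α + 2) = 2 ^ α - 1 := by
    rw [← hydiv, hy, e2, Nat.mod_mul_right_div_self]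
  have hS'y : A 1 * (m + 2 ^ w * g) / 2 ^ w % 2 ^ (α + 2) = 2 ^ (α + 1) - 1 := by
    have h1 : A 1 * (m + 2 ^ w * g) = A 1 * m + 2 ^ w * (2 ^ α * (A' * g)) := by
      rw [mul_add, hA]; ring
    rw [h1, Nat.add_mul_div_left _ _ p1, Nat.add_mod, hSy]
    have h2 : 2 ^ α * (A' * g) % 2 ^ (α + 2) = 2 ^ α := by
      have h3 : A' * g = 4 * (A' * g / 4) + 1 := by omega
      have h4 : 2 ^ α * (A' * g) = 2 ^ α + 2 ^ (α + 2) * (A' * g / 4) := by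
        calc 2 ^ α * (A' * g) = 2 ^ α * (4 * (A' * g / 4) + 1) := by rw [← h3]
          _ = _ := by ring
      rw [h4, Nat.add_mul_mod_self_left, Nat.mod_eq_of_lt]
      exact Nat.pow_lt_pow_right (by norm_num) (by omega)
    rw [h2, Nat.mod_eq_of_lt]
    · have : 2 ^ (α + 1) = 2 * 2 ^ α := by ring
      omega
    · have : 2 ^ (α + 2) = 4 * 2 ^ α := by ring
      omega
  have hmodk : ∀ z : ℕ, z % 2 ^ k / 2 ^ w % 2 ^ (α + 2) = z / 2 ^ w % 2 ^ (α + 2) := fun z => by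
    obtain ⟨t, ht⟩ : ∃ t, k = w + t := ⟨k - w, by omega⟩
    rw [ht, pow_add, Nat.mod_mul_right_div_self]
    exact Nat.mod_mod_of_dvd _ (pow_dvd_pow 2 (by omega))
  have h7 : sg (A 1 * m % 2 ^ k / 2 ^ w + 1) * sg (A 1 * m % 2 ^ k / 2 ^ w) =
      -(sg (A 1 * (m + 2 ^ w * g) % 2 ^ k / 2 ^ w + 1) *
        sg (A 1 * (m + 2 ^ w * g) % 2 ^ k / 2 ^ w)) :=
    sg_pair α _ _ (by rw [hmodk, hSy]) (by rw [hmodk, hS'y])
  have hmain := pr_flip w k n (by omega) (fun l => A (l + 1) * m ^ (l + 1))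
    (fun l => A (l + 1) * (m + 2 ^ w * g) ^ (l + 1)) β
    (fun i _ => hlowmod (i + 1))
    (fun i hi => (hq (i + 1) (mem_Icc.2 ⟨by omega, by omega⟩)).1)
    (fun i hi => (hq (i + 1) (mem_Icc.2 ⟨by omega, by omega⟩)).2.2)
    (fun i hi => (hq (i + 1) (mem_Icc.2 ⟨by omega, by omega⟩)).2.1)
    (by simp only [zero_add, pow_one]; omega) (by simp only [zero_add, pow_one]; omega) hβw
    (fun i hi => by
      have h8 := hlow (i + 2) (mem_Icc.2 ⟨by omega, by omega⟩)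
      have h9 := hB (i + 1) (mem_Icc.2 ⟨by omega, by omega⟩)
      change A (i + 2) * m ^ (i + 2) % 2 ^ w + A (i + 1) * m ^ (i + 1) / 2 ^ k < 2 ^ w
      omega)
    (by simpa only [zero_add, pow_one] using h7)
  rw [hmain]
  ring

end Pool.Agent.Lib.MP_8fac0f_nt.OV
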