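import Pool.Agent.Lib.MP_8fac0f_nt.OV.Good

/-!
# Many good `m` for each `x`
-/

set_option autoImplicit false

namespace Pool.Agent.Lib.MP_8fac0f_nt.OV

open Finset Polynomial N

theorem top_bound (A : ℕ → ℕ) (d G w v x μ0 μ1 k m l : ℕ) (hl1 : 1 ≤ l) (hl : l ≤ d)
    (hAu : A l < 2 ^ G * x ^ (d - l)) (hx : x < 2 ^ μ0) (hm : m < 2 ^ (μ1 + 2))
    (hμ : μ0 = μ1 + (v + 3)) (hk : k + w = G + d * μ0) (hvw : v ≤ w) :
    A l * m ^ l / 2 ^ k < 2 ^ (w - v) := by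
  have e1 : 2 ^ G * (2 ^ μ0) ^ (d - l) * (2 ^ μ0) ^ l = 2 ^ (k + w) := by
    rw [mul_assoc, ← pow_add, Nat.sub_add_cancel hl, ← pow_mul, ← pow_add, hk, mul_comm μ0 d]
  have e2 : 2 ^ k * 2 ^ (w - v) * 2 ^ v = 2 ^ (k + w) := by
    rw [← pow_add, ← pow_add]; congr 1; omega
  have h1 : 2 ^ v ≤ (2 ^ (v + 1)) ^ l :=
    (Nat.pow_le_pow_right (by norm_num) (Nat.le_succ v)).trans (Nat.le_self_pow (by omega) _)
  have h2 : m * 2 ^ (v + 1) ≤ 2 ^ μ0 := by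
    have e3 : 2 ^ μ0 = 2 ^ (μ1 + 2) * 2 ^ (v + 1) := by
      rw [← pow_add, hμ]; congr 1; omega
    rw [e3]
    exact Nat.mul_le_mul_right _ hm.le
  have h0 : A l * m ^ l * 2 ^ v < 2 ^ k * 2 ^ (w - v) * 2 ^ v := by
    rw [e2]
    calc A l * m ^ l * 2 ^ v ≤ A l * m ^ l * (2 ^ (v + 1)) ^ l := Nat.mul_le_mul_left _ h1
      _ = A l * (m * 2 ^ (v + 1)) ^ l := by rw [mul_pow, mul_assoc]
      _ ≤ A l * (2 ^ μ0) ^ l := Nat.mul_le_mul_left _ (Nat.pow_le_pow_left h2 _)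
      _ < 2 ^ G * x ^ (d - l) * (2 ^ μ0) ^ l := Nat.mul_lt_mul_of_pos_right hAu (by positivity)
      _ ≤ 2 ^ G * (2 ^ μ0) ^ (d - l) * (2 ^ μ0) ^ l :=
        Nat.mul_le_mul_right _ (Nat.mul_le_mul_left _ (Nat.pow_le_pow_left hx.le _))
      _ = 2 ^ (k + w) := e1
  exact Nat.div_lt_of_lt_mul (Nat.lt_of_mul_lt_mul_right h0)

theorem gap_upper (A : ℕ → ℕ) (d G w x μ0 μ1 g m l : ℕ) (hl1 : 1 ≤ l) (hl : l ≤ d)
    (hAu : A l < 2 ^ G * x ^ (d - l)) (hx : x < 2 ^ μ0) (hmg : m + 2 ^ w * g < 2 ^ (μ1 + 2))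
    (hg : g ≤ 4) (hμ : μ1 + 2 ≤ μ0) :
    A l * (m + 2 ^ w * g) ^ l + 2 ^ w ≤ A l * m ^ l + 2 ^ (G + d + μ0 * (d - 1) + w + 3) := by
  have h1 := bern l m (2 ^ w * g)
  have h2 : A l * (l * (2 ^ w * g) * (m + 2 ^ w * g) ^ (l - 1)) ≤
      2 ^ (G + d + μ0 * (d - 1) + w + 2) := by
    calc A l * (l * (2 ^ w * g) * (m + 2 ^ w * g) ^ (l - 1))
        ≤ (2 ^ G * (2 ^ μ0) ^ (d - l)) * (2 ^ d * (2 ^ w * 2 ^ 2) * (2 ^ μ0) ^ (l - 1)) := by
          refine Nat.mul_le_mul (hAu.le.trans (Nat.mul_le_mul_left _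
            (Nat.pow_le_pow_left hx.le _))) (Nat.mul_le_mul (Nat.mul_le_mul ?_ ?_)
            (Nat.pow_le_pow_left ?_ _))
          · exact hl.trans Nat.lt_two_pow_self.le
          · exact Nat.mul_le_mul_left _ (by omega)
          · exact hmg.le.trans (Nat.pow_le_pow_right (by norm_num) hμ)
      _ = 2 ^ (G + d + μ0 * (d - 1) + w + 2) := by
          have e : (d - l) + (l - 1) = d - 1 := by omega
          have e' : (2 ^ μ0) ^ (d - l) * (2 ^ μ0) ^ (l - 1) = 2 ^ (μ0 * (d - 1)) := by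
            rw [← pow_add, e, ← pow_mul]
          calc _ = 2 ^ G * 2 ^ d * ((2 ^ μ0) ^ (d - l) * (2 ^ μ0) ^ (l - 1)) * 2 ^ w * 2 ^ 2 := by
                ring
            _ = _ := by rw [e', ← pow_add, ← pow_add, ← pow_add, ← pow_add]
  have h3 : 2 ^ w ≤ 2 ^ (G + d + μ0 * (d - 1) + w + 2) :=
    Nat.pow_le_pow_right (by norm_num) (by omega)
  have h4 : A l * (m + 2 ^ w * g) ^ l ≤
      A l * m ^ l + A l * (l * (2 ^ w * g) * (m + 2 ^ w * g) ^ (l - 1)) := by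
    rw [← mul_add]; exact Nat.mul_le_mul_left _ h1
  have h5 : 2 ^ (G + d + μ0 * (d - 1) + w + 3) = 2 * 2 ^ (G + d + μ0 * (d - 1) + w + 2) := by ring
  omega

theorem gap_lower (A : ℕ → ℕ) (d x μ1 m m' l : ℕ) (hl1 : 1 ≤ l) (hl : l ≤ d)
    (hAl : x ^ (d - l) ≤ A l) (hx : 2 ^ μ1 ≤ x) (hm : 2 ^ μ1 ≤ m) (hmm : m < m') :
    A l * m ^ l + 2 ^ (μ1 * (d - 1)) ≤ A l * m' ^ l := by
  obtain ⟨q, rfl⟩ : ∃ q, l = q + 1 := ⟨l - 1, by omega⟩
  have h1 : m ^ (q + 1) + m ^ q ≤ m' ^ (q + 1) := by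
    calc m ^ (q + 1) + m ^ q = m ^ q * (m + 1) := by ring
      _ ≤ m' ^ q * m' := Nat.mul_le_mul (Nat.pow_le_pow_left hmm.le _) hmm
      _ = _ := (pow_succ _ _).symm
  have h2 : 2 ^ (μ1 * (d - 1)) ≤ A (q + 1) * m ^ q := by
    calc 2 ^ (μ1 * (d - 1)) = (2 ^ μ1) ^ (d - (q + 1)) * (2 ^ μ1) ^ q := by
          rw [← pow_add, ← pow_mul]; congr 2; omega
      _ ≤ x ^ (d - (q + 1)) * m ^ q :=
          Nat.mul_le_mul (Nat.pow_le_pow_left hx _) (Nat.pow_le_pow_left hm _)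
      _ ≤ _ := Nat.mul_le_mul_right _ hAl
  calc A (q + 1) * m ^ (q + 1) + 2 ^ (μ1 * (d - 1))
      ≤ A (q + 1) * m ^ (q + 1) + A (q + 1) * m ^ q := Nat.add_le_add_left h2 _
    _ = A (q + 1) * (m ^ (q + 1) + m ^ q) := by ring
    _ ≤ _ := Nat.mul_le_mul_left _ h1

/-- The lower bound for the incoming summand. -/
theorem beta_lower (a d G w x u k : ℕ) (hal : x ^ d ≤ a) (hx : 2 ^ u ≤ x)
    (hk : k + w = G + d * (u + 1)) (hw : G + d ≤ w) : 2 ^ (w - G - d) ≤ a / 2 ^ k := by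
  rw [Nat.le_div_iff_mul_le (by positivity), ← pow_add]
  have e : w - G - d + k = u * d := by
    rw [mul_add, mul_one, mul_comm d u] at hk
    omega
  rw [e, pow_mul]
  exact (Nat.pow_le_pow_left hx d).trans hal

open Classical in
theorem good_count (A : ℕ → ℕ) (d G w v x u μ0 μ1 k α A' : ℕ) (hd : 2 ≤ d)
    (hAu : ∀ l ≤ d, A l < 2 ^ G * x ^ (d - l)) (hAl : ∀ l ≤ d, x ^ (d - l) ≤ A l)
    (hAv : ∀ l ≤ d, ¬ 2 ^ G ∣ A l) (hA1 : A 1 = 2 ^ α * A') (hA' : Odd A') (hα : α < G)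
    (hx1 : 2 ^ u ≤ x) (hu : μ0 = u + 1) (hx2 : x < 2 ^ μ0)
    (hv : v = 4 * G + 3 * d + 6) (hμ1 : μ1 = 2 * w + (v + 3) * (d + 1)) (hμ0 : μ0 = μ1 + (v + 3))
    (hk : k + w = G + d * μ0) (hw : v + 2 * G + 2 * d + 10 ≤ w) :
    2 ^ (μ1 - (3 * G + d + 4)) ≤ ((Ico (2 ^ μ1) (2 ^ (μ1 + 1))).filter (fun m =>
      Gd A d w v k (2 ^ (G + d + μ0 * (d - 1) + w + 3)) (A 0 / 2 ^ k) α m)).card := by
  set L := 2 ^ (G + d + μ0 * (d - 1) + w + 3) with hL
  set β := A 0 / 2 ^ k with hβ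
  have hM2 : 2 ^ (μ1 + 1) = 2 * 2 ^ μ1 := by ring
  have hβw : β < 2 ^ w := by
    refine Nat.div_lt_of_lt_mul ?_
    calc A 0 < 2 ^ G * x ^ (d - 0) := hAu 0 (Nat.zero_le _)
      _ ≤ 2 ^ G * (2 ^ μ0) ^ d := Nat.mul_le_mul_left _ (Nat.pow_le_pow_left hx2.le _)
      _ = 2 ^ k * 2 ^ w := by rw [← pow_mul, ← pow_add, ← pow_add, hk, mul_comm μ0 d]
  have hβl : 2 ^ (w - G - d) ≤ β :=
    beta_lower (A 0) d G w x u k (hAl 0 (Nat.zero_le _)) hx1 (by rw [hk, hu]) (by omega)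
  set Good := (Ico (2 ^ μ1) (2 ^ (μ1 + 1))).filter (fun m => Gd A d w v k L β α m) with hGood
  set lo := 2 ^ (w + α) - β with hlo
  set hi := 2 ^ (w + α) - β / 2 with hhi
  set Low := (Ico (2 ^ μ1) (2 * 2 ^ μ1)).filter fun m => Odd m ∧ lo ≤ A 1 * m % 2 ^ (w + α + 2) ∧
    A 1 * m % 2 ^ (w + α + 2) < hi with hLow
  set Bad : ℕ → Finset ℕ := fun l => (range (2 ^ (μ1 + 1))).filter fun m => Odd m ∧
    2 ^ w ≤ A l * m ^ l % 2 ^ w + 2 ^ (w - v) with hBad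
  set Near : ℕ → Finset ℕ := fun l => (Ico (2 ^ μ1) (2 * 2 ^ μ1)).filter fun m =>
    2 ^ k < A l * m ^ l % 2 ^ k + L with hNear
  -- cover
  have hcov : Low ⊆ (Good ∪ (Icc 2 d).biUnion Bad) ∪ (Icc 1 (d - 1)).biUnion Near := by
    intro m hm
    obtain ⟨hm1, hm2, hm3, hm4⟩ := mem_filter.1 hm
    by_cases hb : m ∈ (Icc 2 d).biUnion Bad
    · exact mem_union_left _ (mem_union_right _ hb)
    by_cases hn : m ∈ (Icc 1 (d - 1)).biUnion Near
    · exact mem_union_right _ hn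
    refine mem_union_left _ (mem_union_left _ (mem_filter.2 ⟨by rw [hM2]; exact hm1, hm2, hm3, hm4,
      ?_, ?_⟩))
    · intro l hl
      by_contra hcon
      refine hb (mem_biUnion.2 ⟨l, hl, mem_filter.2 ⟨mem_range.2 ?_, hm2, by omega⟩⟩)
      rw [hM2]; exact (mem_Ico.1 hm1).2
    · intro l hl
      by_contra hcon
      exact hn (mem_biUnion.2 ⟨l, hl, mem_filter.2 ⟨hm1, by omega⟩⟩)
  -- the exponents
  have hT : (v + 3) * (d + 1) = (v + 3) * (d - 1) + 2 * (v + 3) := by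
    have : d + 1 = (d - 1) + 2 := by omega
    rw [this, mul_add, mul_comm (v + 3) 2]
  have hT2 : μ0 * (d - 1) = μ1 * (d - 1) + (v + 3) * (d - 1) := by rw [hμ0, add_mul]
  rw [hT] at hμ1
  generalize (v + 3) * (d - 1) = T at hμ1 hT2
  set E := μ1 - (3 * G + d + 5) with hE
  have hd2 : d - 1 ≤ 2 ^ d := (Nat.sub_le _ _).trans Nat.lt_two_pow_self.le
  -- bad
  have cbad : ((Icc 2 d).biUnion Bad).card ≤ 2 ^ E := by
    have h1 : ∀ l ∈ Icc 2 d, (Bad l).card ≤ 2 ^ (w - v) * 2 ^ (μ1 + 1 - (w - (G + d))) :=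
      fun l hl => by
      have hl' := mem_Icc.1 hl
      exact bad_count (A l) G l d w v (μ1 + 1) (hAv l hl'.2) (by omega)
        (lt_of_le_of_lt hl'.2 Nat.lt_two_pow_self) (by omega) (by omega) (by omega)
    refine (card_biUnion_le_card_mul _ _ _ h1).trans ?_
    calc (Icc 2 d).card * (2 ^ (w - v) * 2 ^ (μ1 + 1 - (w - (G + d))))
        ≤ 2 ^ d * (2 ^ (w - v) * 2 ^ (μ1 + 1 - (w - (G + d)))) := by
          refine Nat.mul_le_mul_right _ ?_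
          rw [Nat.card_Icc]
          omega
      _ = 2 ^ (d + ((w - v) + (μ1 + 1 - (w - (G + d))))) := by rw [pow_add, pow_add]
      _ ≤ 2 ^ E := Nat.pow_le_pow_right (by norm_num) (by omega)
  -- near
  have cnear : ((Icc 1 (d - 1)).biUnion Near).card ≤ 2 ^ E := by
    have h1 : ∀ l ∈ Icc 1 (d - 1), (Near l).card ≤
        2 ^ (w - v) * (L / 2 ^ (μ1 * (d - 1)) + 1) := fun l hl => by
      have hl' := mem_Icc.1 hl
      refine near_count (fun m => A l * m ^ l) (2 ^ μ1) (2 ^ k) L (2 ^ (μ1 * (d - 1)))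
        (2 ^ (w - v)) (by positivity) (by positivity) (fun m m' hm hmm _ => ?_) (fun m hm => ?_)
      · refine gap_lower A d x μ1 m m' l hl'.1 (by omega) (hAl l (by omega)) ?_ hm hmm
        exact (Nat.pow_le_pow_right (by norm_num) (by omega)).trans hx1
      · refine top_bound A d G w v x μ0 μ1 k m l hl'.1 (by omega) (hAu l (by omega)) hx2 ?_ hμ0 hk
          (by omega)
        refine hm.trans ?_
        rw [← hM2]
        exact Nat.pow_lt_pow_right (by norm_num) (by omega)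
    refine (card_biUnion_le_card_mul _ _ _ h1).trans ?_
    have h2 : L / 2 ^ (μ1 * (d - 1)) = 2 ^ (G + d + w + 3 + T) := by
      have e1 : G + d + μ0 * (d - 1) + w + 3 = μ1 * (d - 1) + (G + d + w + 3 + T) := by omega
      rw [hL, e1, pow_add]
      exact Nat.mul_div_cancel_left _ (by positivity)
    rw [h2]
    have h3 : 2 ^ (G + d + w + 3 + T) + 1 ≤ 2 ^ (G + d + w + 4 + T) := by
      have e1 : 2 ^ (G + d + w + 4 + T) = 2 * 2 ^ (G + d + w + 3 + T) := by ring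
      have e2 : 0 < 2 ^ (G + d + w + 3 + T) := by positivity
      omega
    calc (Icc 1 (d - 1)).card * (2 ^ (w - v) * (2 ^ (G + d + w + 3 + T) + 1))
        ≤ 2 ^ d * (2 ^ (w - v) * 2 ^ (G + d + w + 4 + T)) := by
          refine Nat.mul_le_mul ?_ (Nat.mul_le_mul_left _ h3)
          rw [Nat.card_Icc]
          omega
      _ = 2 ^ (d + ((w - v) + (G + d + w + 4 + T))) := by rw [← pow_add, ← pow_add]
      _ ≤ 2 ^ E := Nat.pow_le_pow_right (by norm_num) (by omega)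
  have hb0 : 0 ≤ β / 2 := Nat.zero_le _
  have hb1 : β / 2 ≤ β := Nat.div_le_self _ _
  -- low
  have clow : 4 * 2 ^ E ≤ Low.card := by
    have p1 : 2 ^ w ≤ 2 ^ (w + α) := Nat.pow_le_pow_right (by norm_num) (by omega)
    have p2 : 2 ^ (w + α) ≤ 2 ^ (w + α + 2) := Nat.pow_le_pow_right (by norm_num) (by omega)
    have h1 := lower_count (A 1) α A' (w + α + 2) (μ1 - (w + α + 2)) lo hi (2 ^ μ1) hA1 hA'
      (by omega) (by congr 1; omega) ((Nat.sub_le _ _).trans p2) (Nat.sub_le_sub_left hb1 _)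
    refine le_trans ?_ h1
    have h2 : 2 ^ (w - G - d - α - 3) ≤ (hi - lo) / 2 ^ (α + 1) - 1 := by
      have h3 : 2 * 2 ^ (w - G - d - α - 3) ≤ (hi - lo) / 2 ^ (α + 1) := by
        rw [Nat.le_div_iff_mul_le (by positivity)]
        have e1 : 2 * 2 ^ (w - G - d - α - 3) * 2 ^ (α + 1) = 2 ^ (w - G - d - 1) := by
          have e2 : 2 * 2 ^ (w - G - d - α - 3) = 2 ^ (w - G - d - α - 3 + 1) := by ring
          rw [e2, ← pow_add]
          congr 1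
          omega
        have e3 : 2 ^ (w - G - d) = 2 * 2 ^ (w - G - d - 1) := by
          rw [← pow_succ']
          congr 1
          omega
        rw [e1]
        omega
      have h4 : 0 < 2 ^ (w - G - d - α - 3) := by positivity
      omega
    calc 4 * 2 ^ E = 2 ^ (2 + E) := by rw [pow_add]; norm_num
      _ ≤ 2 ^ ((μ1 - (w + α + 2)) + (w - G - d - α - 3)) :=
          Nat.pow_le_pow_right (by norm_num) (by omega)
      _ = 2 ^ (μ1 - (w + α + 2)) * 2 ^ (w - G - d - α - 3) := by rw [pow_add]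
      _ ≤ _ := Nat.mul_le_mul_left _ h2
  have hfin : Low.card ≤ Good.card + ((Icc 2 d).biUnion Bad).card +
      ((Icc 1 (d - 1)).biUnion Near).card :=
    (card_le_card hcov).trans ((card_union_le _ _).trans
      (Nat.add_le_add_right (card_union_le _ _) _))
  have e1 : 2 ^ (μ1 - (3 * G + d + 4)) = 2 * 2 ^ E := by
    rw [← pow_succ']
    congr 1
    omega
  rw [e1]
  omega

end Pool.Agent.Lib.MP_8fac0f_nt.OV
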