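import Pool.Agent.Lib.MP_8fac0f_nt.OV.Per

/-!
# The number of the arguments with a prescribed letter
-/

set_option autoImplicit false

namespace Pool.Agent.Lib.MP_8fac0f_nt.OV

open Finset Polynomial N

theorem key4 (a b c e ε : ℝ) (ha : a = 1 ∨ a = -1) (hb : b = 1 ∨ b = -1) (hc : c = 1 ∨ c = -1)
    (he : e = 1 ∨ e = -1) (hε : ε = 1 ∨ ε = -1) (h : a * b = -(c * e)) :
    a = ε ∨ b = ε ∨ c = ε ∨ e = ε := by
  have hfl : ∀ y : ℝ, (y = 1 ∨ y = -1) → y ≠ ε → y = -ε := fun y hy hne => by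
    rcases hy with rfl | rfl
    · rcases hε with rfl | rfl
      · exact absurd rfl hne
      · exact (neg_neg 1).symm
    · rcases hε with rfl | rfl
      · rfl
      · exact absurd rfl hne
  by_contra hcon
  rw [not_or, not_or, not_or] at hcon
  obtain ⟨h1, h2, h3, h4⟩ := hcon
  rw [hfl a ha h1, hfl b hb h2, hfl c hc h3, hfl e he h4] at h
  rcases hε with rfl | rfl <;> norm_num at h

theorem per (P : ℕ[X]) (d G w v μ0 μ1 k x u : ℕ) (hd2 : 2 ≤ d) (hd : P.natDegree = d)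
    (hG : P.eval 2 < 2 ^ G) (hx1 : 2 ^ u ≤ x) (hu : μ0 = u + 1) (hx2 : x < 2 ^ μ0)
    (hxm : x ≡ 1 [MOD 2 ^ G])
    (hv : v = 4 * G + 3 * d + 6) (hμ1 : μ1 = 2 * w + (v + 3) * (d + 1)) (hμ0 : μ0 = μ1 + (v + 3))
    (hk : k + w = G + d * μ0) (hw : v + 2 * G + 2 * d + 10 ≤ w) :
    ∃ (S : Finset ℕ) (δ : ℕ), 2 ^ (μ1 - (3 * G + d + 4)) ≤ S.card ∧ ∀ m ∈ S,
      m + δ < 2 ^ (μ1 + 2) ∧
      sg (P.eval (x + 2 ^ k * m)) * sg (P.eval (x + 2 ^ (k + 1) * m)) =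
        -(sg (P.eval (x + 2 ^ k * (m + δ))) * sg (P.eval (x + 2 ^ (k + 1) * (m + δ)))) := by
  classical
  have hx0 : 1 ≤ x := Nat.one_le_two_pow.trans hx1
  have hV : ∀ j m : ℕ, P.eval (x + 2 ^ j * m) = V (fun l => hs P l x * m ^ l) j d := fun j m => by
    rw [eval_shift P d hd.le x (2 ^ j * m)]
    unfold V hs
    refine sum_congr rfl fun l _ => ?_
    rw [mul_pow, pow_mul]
    ring
  have hAu : ∀ l ≤ d, hs P l x < 2 ^ G * x ^ (d - l) := fun l hl =>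
    (hs_upper P d l x hd hl hx0).trans_lt (Nat.mul_lt_mul_of_pos_right hG (by positivity))
  have hAl : ∀ l ≤ d, x ^ (d - l) ≤ hs P l x := fun l hl => hs_lower P d l x hd (by omega) hl
  have hAv : ∀ l ≤ d, ¬ 2 ^ G ∣ hs P l x := fun l hl => hs_val P d l x G hd (by omega) hl hG hxm
  have hA0 : hs P 1 x ≠ 0 := by
    have h1 := hAl 1 (by omega)
    have h2 : 0 < x ^ (d - 1) := by positivity
    omega
  obtain ⟨α, A', hA', hA1⟩ := Nat.exists_eq_two_pow_mul_odd hA0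
  have hα : α < G := by
    by_contra hcon
    exact hAv 1 (by omega) (hA1 ▸ (pow_dvd_pow 2 (not_lt.1 hcon)).mul_right A')
  refine ⟨_, 2 ^ w * (A' % 4), good_count (fun l => hs P l x) d G w v x u μ0 μ1 k α A' hd2
    hAu hAl hAv hA1 hA' hα hx1 hu hx2 hv hμ1 hμ0 hk hw, fun m hm => ?_⟩
  obtain ⟨hm1, hm2⟩ := mem_filter.1 hm
  have hm1' := mem_Ico.1 hm1
  have hg4 : A' % 4 < 4 := Nat.mod_lt _ (by norm_num)
  have hlt : m + 2 ^ w * (A' % 4) < 2 ^ (μ1 + 2) := by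
    have e1 : 2 ^ (μ1 + 2) = 2 * 2 ^ (μ1 + 1) := by ring
    have e2 : 2 ^ w * (A' % 4) ≤ 2 ^ w * 2 ^ 2 := Nat.mul_le_mul_left _ (by omega)
    have e3 : 2 ^ w * 2 ^ 2 ≤ 2 ^ (μ1 + 1) := by
      rw [← pow_add]; exact Nat.pow_le_pow_right (by norm_num) (by omega)
    omega
  have hdm : 2 * μ0 ≤ d * μ0 := Nat.mul_le_mul_right _ hd2
  have hg1 : A' * (A' % 4) % 4 = 1 := by
    have h1 : A' % 4 = 1 ∨ A' % 4 = 3 := by
      obtain ⟨t, ht⟩ := hA'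
      omega
    rw [Nat.mul_mod, Nat.mod_mod]
    rcases h1 with h1 | h1 <;> rw [h1]
  have hm3 : m < 2 ^ (μ1 + 2) := by omega
  have hβw : hs P 0 x / 2 ^ k < 2 ^ w := by
    refine Nat.div_lt_of_lt_mul ?_
    calc hs P 0 x < 2 ^ G * x ^ (d - 0) := hAu 0 (Nat.zero_le _)
      _ ≤ 2 ^ G * (2 ^ μ0) ^ d := Nat.mul_le_mul_left _ (Nat.pow_le_pow_left hx2.le _)
      _ = 2 ^ k * 2 ^ w := by rw [← pow_mul, ← pow_add, ← pow_add, hk, mul_comm μ0 d]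
  refine ⟨hlt, ?_⟩
  rw [hV, hV, hV, hV]
  exact flip4 (fun l => hs P l x) d w v k _ (hs P 0 x / 2 ^ k) α A' (A' % 4) m hd2
    (by omega) hA1 hg1 rfl hβw
    (fun l hl => by
      have hl' := mem_Icc.1 hl
      exact top_bound (fun l => hs P l x) d G w v x μ0 μ1 k m l hl'.1 (by omega)
        (hAu l (by omega)) hx2 hm3 hμ0 hk (by omega))
    (fun l hl => by
      have hl' := mem_Icc.1 hl
      exact gap_upper (fun l => hs P l x) d G w x μ0 μ1 (A' % 4) m l hl'.1 (by omega)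
        (hAu l (by omega)) hx2 hlt hg4.le (by omega))
    hm2

theorem twin4 (P : ℕ[X]) (d : ℕ) (hd2 : 2 ≤ d) (hd : P.natDegree = d) :
    ∃ lam w0 : ℕ, ∀ w : ℕ, w0 ≤ w → ∀ N : ℕ, 2 ^ (lam + (2 * d + 1) * w) ≤ N →
      ∀ ε : ℝ, (ε = 1 ∨ ε = -1) →
        2 ^ (4 * w) ≤ 4 * ((range N).filter fun n => sg (P.eval n) = ε).card := by
  classical
  obtain ⟨G, hG⟩ : ∃ G, P.eval 2 < 2 ^ G := ⟨P.eval 2, Nat.lt_two_pow_self⟩
  have hG1 : 1 ≤ G := by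
    rcases Nat.eq_zero_or_pos G with rfl | h
    · exfalso
      have h1 := hs_lower P d 0 1 hd (by omega) (Nat.zero_le _)
      have h2 := hs_one P d 0 hd (Nat.zero_le _)
      rw [one_pow] at h1
      rw [pow_zero] at hG
      omega
    · exact h
  obtain ⟨v, hv⟩ : ∃ v, v = 4 * G + 3 * d + 6 := ⟨_, rfl⟩
  refine ⟨(v + 3) * (d + 1) + G + 3 + d * ((v + 3) * (d + 1) + (v + 3)), v + 2 * G + 2 * d + 10,
    fun w hw N hN ε hε => ?_⟩
  obtain ⟨μ1, hμ1⟩ : ∃ μ1, μ1 = 2 * w + (v + 3) * (d + 1) := ⟨_, rfl⟩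
  obtain ⟨μ0, hμ0⟩ : ∃ μ0, μ0 = μ1 + (v + 3) := ⟨_, rfl⟩
  obtain ⟨u, hu⟩ : ∃ u, μ0 = u + 1 := ⟨μ0 - 1, by omega⟩
  have hdm : 2 * μ0 ≤ d * μ0 := Nat.mul_le_mul_right _ hd2
  obtain ⟨k, hk⟩ : ∃ k, k + w = G + d * μ0 := ⟨G + d * μ0 - w, by omega⟩
  have hμk : μ0 ≤ k := by omega
  have hN' : 2 ^ (μ1 + k + 3) ≤ N := by
    refine le_trans (le_of_eq ?_) hN
    congr 1
    have e1 : μ1 + k + 3 + w = μ1 + 3 + (G + d * μ0) := by omega
    have e2 : μ1 + 3 + (G + d * μ0) = (v + 3) * (d + 1) + G + 3 +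
        d * ((v + 3) * (d + 1) + (v + 3)) + (2 * d + 1) * w + w := by
      rw [hμ0, hμ1]; ring
    omega
  -- the arguments x
  set x : ℕ → ℕ := fun y => 2 ^ u + 2 ^ G * y + 1 with hx
  have hGu : 2 ^ u = 2 ^ G * 2 ^ (u - G) := by rw [← pow_add]; congr 1; omega
  have p1 : 2 ^ 1 ≤ 2 ^ G := Nat.pow_le_pow_right (by norm_num) hG1
  have hxlt : ∀ y ∈ range (2 ^ (u - G)), x y < 2 ^ μ0 := fun y hy => by
    have h1 := mem_range.1 hy
    have h2 : 2 ^ G * y + 2 ^ G ≤ 2 ^ u := by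
      rw [hGu]
      calc 2 ^ G * y + 2 ^ G = 2 ^ G * (y + 1) := by ring
        _ ≤ _ := Nat.mul_le_mul_left _ h1
    have h3 : 2 ^ μ0 = 2 * 2 ^ u := by rw [hu]; ring
    change 2 ^ u + 2 ^ G * y + 1 < 2 ^ μ0
    omega
  have hper : ∀ y : ℕ, ∃ (S : Finset ℕ) (δ : ℕ), y ∈ range (2 ^ (u - G)) →
      2 ^ (μ1 - (3 * G + d + 4)) ≤ S.card ∧ ∀ m ∈ S,
      m + δ < 2 ^ (μ1 + 2) ∧
      sg (P.eval (x y + 2 ^ k * m)) * sg (P.eval (x y + 2 ^ (k + 1) * m)) =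
        -(sg (P.eval (x y + 2 ^ k * (m + δ))) * sg (P.eval (x y + 2 ^ (k + 1) * (m + δ)))) := by
    intro y
    by_cases hy : y ∈ range (2 ^ (u - G))
    · obtain ⟨S, δ, h⟩ := per P d G w v μ0 μ1 k (x y) u hd2 hd hG
        (by change 2 ^ u ≤ 2 ^ u + 2 ^ G * y + 1; omega) hu (hxlt y hy) (by
          have e1 : x y = 1 + 2 ^ G * (2 ^ (u - G) + y) := by
            change 2 ^ u + 2 ^ G * y + 1 = _
            rw [hGu]; ring
          rw [e1]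
          exact Nat.ModEq.add_left 1 (Nat.modEq_zero_iff_dvd.2 (Dvd.intro _ rfl))) hv hμ1 hμ0 hk hw
      exact ⟨S, δ, fun _ => h⟩
    · exact ⟨∅, 0, fun h => absurd h hy⟩
  choose S δ hSδ using hper
  set F : Finset (Σ _ : ℕ, ℕ) := (range (2 ^ (u - G))).sigma S with hF
  have hFcard : 2 ^ (4 * w) ≤ F.card := by
    rw [hF, card_sigma]
    calc 2 ^ (4 * w) ≤ 2 ^ ((u - G) + (μ1 - (3 * G + d + 4))) :=
          Nat.pow_le_pow_right (by norm_num) (by omega)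
      _ = (range (2 ^ (u - G))).card • 2 ^ (μ1 - (3 * G + d + 4)) := by
          rw [card_range, smul_eq_mul, pow_add]
      _ ≤ _ := card_nsmul_le_sum _ _ _ fun y hy => (hSδ y hy).1
  set T := (range N).filter fun n => sg (P.eval n) = ε with hT
  -- the four maps
  set n : ℕ → (ℕ → ℕ) → (Σ _ : ℕ, ℕ) → ℕ := fun j e p => x p.1 + 2 ^ j * (p.2 + e p.1) with hn
  have hdiv : ∀ j e p, k ≤ j → p ∈ F → n j e p / 2 ^ j = p.2 + e p.1 ∧ n j e p % 2 ^ j = x p.1 := by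
    intro j e p hj hp
    have h1 := (mem_sigma.1 hp).1
    have h2 : x p.1 < 2 ^ j := (hxlt _ h1).trans_le
      (Nat.pow_le_pow_right (by norm_num) (hμk.trans hj))
    constructor
    · change (x p.1 + 2 ^ j * (p.2 + e p.1)) / 2 ^ j = _
      rw [Nat.add_mul_div_left _ _ (by positivity), Nat.div_eq_of_lt h2, zero_add]
    · change (x p.1 + 2 ^ j * (p.2 + e p.1)) % 2 ^ j = _
      rw [Nat.add_mul_mod_self_left, Nat.mod_eq_of_lt h2]
  have hone : ∀ j e, k ≤ j → (F.filter fun p => n j e p ∈ T).card ≤ T.card := by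
    intro j e hj
    refine card_le_card_of_injOn (n j e) (fun p hp => (mem_filter.1 (mem_coe.1 hp)).2) ?_
    intro p hp q hq hpq
    have hp' := (mem_filter.1 (mem_coe.1 hp)).1
    have hq' := (mem_filter.1 (mem_coe.1 hq)).1
    obtain ⟨h1, h2⟩ := hdiv j e p hj hp'
    obtain ⟨h3, h4⟩ := hdiv j e q hj hq'
    rw [hpq] at h1 h2
    have h5 : x p.1 = x q.1 := h2.symm.trans h4
    have h6 : p.1 = q.1 := by
      have h7 : 2 ^ u + 2 ^ G * p.1 + 1 = 2 ^ u + 2 ^ G * q.1 + 1 := h5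
      exact Nat.eq_of_mul_eq_mul_left (by positivity : 0 < 2 ^ G) (by omega)
    have h8 : p.2 = q.2 := by
      have h9 := h1.symm.trans h3
      rw [h6] at h9
      omega
    exact Sigma.ext h6 (heq_of_eq h8)
  have hbd : ∀ j e p, j ≤ k + 1 → p ∈ F → p.2 + e p.1 < 2 ^ (μ1 + 2) → n j e p < N := by
    intro j e p hj hp hlt
    have h1 := (mem_sigma.1 hp).1
    refine lt_of_lt_of_le ?_ hN'
    have h2 : n j e p ≤ n (k + 1) e p := Nat.add_le_add_left (Nat.mul_le_mul_right _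
      (Nat.pow_le_pow_right (by norm_num) hj)) _
    refine lt_of_le_of_lt h2 ?_
    have h3 : x p.1 < 2 ^ (k + 1) := (hxlt _ h1).trans_le
      (Nat.pow_le_pow_right (by norm_num) (by omega))
    calc x p.1 + 2 ^ (k + 1) * (p.2 + e p.1) < 2 ^ (k + 1) + 2 ^ (k + 1) * (p.2 + e p.1) :=
          Nat.add_lt_add_right h3 _
      _ = 2 ^ (k + 1) * (p.2 + e p.1 + 1) := by ring
      _ ≤ 2 ^ (k + 1) * 2 ^ (μ1 + 2) := Nat.mul_le_mul_left _ hlt
      _ = 2 ^ (μ1 + k + 3) := by rw [← pow_add]; congr 1; omega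
  set z : ℕ → ℕ := fun _ => 0 with hz
  have hcov : F ⊆ ((F.filter fun p => n k z p ∈ T) ∪ F.filter fun p => n (k + 1) z p ∈ T) ∪
      ((F.filter fun p => n k δ p ∈ T) ∪ F.filter fun p => n (k + 1) δ p ∈ T) := by
    intro p hp
    obtain ⟨h1, h2⟩ := mem_sigma.1 hp
    obtain ⟨hlt, hflip⟩ := (hSδ p.1 h1).2 p.2 h2
    have hlt0 : p.2 + z p.1 < 2 ^ (μ1 + 2) := by
      change p.2 + 0 < 2 ^ (μ1 + 2)
      omega
    rw [mem_union, mem_union, mem_union]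
    rcases key4 _ _ _ _ ε (sg_cases _) (sg_cases _) (sg_cases _) (sg_cases _) hε hflip with
      h | h | h | h
    · exact Or.inl (Or.inl (mem_filter.2 ⟨hp, mem_filter.2 ⟨mem_range.2
        (hbd k z p (by omega) hp hlt0), h⟩⟩))
    · exact Or.inl (Or.inr (mem_filter.2 ⟨hp, mem_filter.2 ⟨mem_range.2
        (hbd (k + 1) z p le_rfl hp hlt0), h⟩⟩))
    · exact Or.inr (Or.inl (mem_filter.2 ⟨hp, mem_filter.2 ⟨mem_range.2
        (hbd k δ p (by omega) hp hlt), h⟩⟩))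
    · exact Or.inr (Or.inr (mem_filter.2 ⟨hp, mem_filter.2 ⟨mem_range.2
        (hbd (k + 1) δ p le_rfl hp hlt), h⟩⟩))
  calc 2 ^ (4 * w) ≤ F.card := hFcard
    _ ≤ _ := card_le_card hcov
    _ ≤ _ := card_union_le _ _
    _ ≤ (T.card + T.card) + (T.card + T.card) := Nat.add_le_add
        ((card_union_le _ _).trans (Nat.add_le_add (hone k z le_rfl) (hone (k + 1) z (by omega))))
        ((card_union_le _ _).trans (Nat.add_le_add (hone k δ le_rfl) (hone (k + 1) δ (by omega))))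
    _ = 4 * T.card := by ring

end Pool.Agent.Lib.MP_8fac0f_nt.OV
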