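import Pool.Agent.Lib.MP_8fac0f_nt.N.Defs

/-!
# Overlapping blocks of binary digits at two scales

The value `V b j n = b 0 + b 1 2 ^ j + ... + b n 2 ^ (j n)` is compared at `j = k` and
`j = k + 1`. The product of the two signs depends only on the low digits of the `b i` and on their
quotients by `2 ^ k`, if the overlaps are added without a carry at `2 ^ w`.
-/

set_option autoImplicit false

namespace Pool.Agent.Lib.MP_8fac0f_nt.OV

open Finset N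

/-- The value at `2 ^ j` of the polynomial with the coefficients `b 0, ..., b n`. -/
def V (b : ℕ → ℕ) (j n : ℕ) : ℕ := ∑ l ∈ range (n + 1), b l * 2 ^ (j * l)

theorem V_zero (b : ℕ → ℕ) (j : ℕ) : V b j 0 = b 0 := by simp [V]

theorem V_succ (b : ℕ → ℕ) (j n : ℕ) :
    V b j (n + 1) = b 0 + 2 ^ j * V (fun l => b (l + 1)) j n := by
  unfold V
  rw [sum_range_succ', mul_sum, add_comm]
  congr 1
  · simp
  · refine sum_congr rfl fun l _ => ?_
    rw [mul_add, mul_one, pow_add]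
    ring

/-- The product over the two scales, with an incoming summand `β`. -/
noncomputable def pr (b : ℕ → ℕ) (k n β : ℕ) : ℝ :=
  sg (β + V b k n) * sg (β / 2 + V b (k + 1) n)

theorem blk0 (w b β : ℕ) (h : b % 2 ^ w + β < 2 ^ w) :
    sg (β + b) * sg (β / 2 + b) = sg (β + b % 2 ^ w) * sg (β / 2 + b % 2 ^ w) := by
  have e1 : ∀ x, x ≤ β → sg (x + b) = sg (x + b % 2 ^ w) * sg (b / 2 ^ w) := fun x hx => by
    have h1 := Nat.div_add_mod b (2 ^ w)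
    have h2 : x + b = 2 ^ w * (b / 2 ^ w) + (x + b % 2 ^ w) := by omega
    rw [h2, sg_split w _ _ (by omega)]
  rw [e1 β le_rfl, e1 (β / 2) (Nat.div_le_self _ _)]
  have h3 := sg_sq (b / 2 ^ w)
  calc sg (β + b % 2 ^ w) * sg (b / 2 ^ w) * (sg (β / 2 + b % 2 ^ w) * sg (b / 2 ^ w))
      = sg (β + b % 2 ^ w) * sg (β / 2 + b % 2 ^ w) * (sg (b / 2 ^ w) * sg (b / 2 ^ w)) := by ring
    _ = _ := by rw [h3, mul_one]

theorem pr_succ (w k n : ℕ) (b : ℕ → ℕ) (β : ℕ) (hC : b 0 % 2 ^ k + 2 ^ w ≤ 2 ^ k)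
    (hβ : β < 2 ^ w) :
    pr b k (n + 1) β = sg (β + b 0 % 2 ^ k) * sg (β / 2 + b 0 % 2 ^ k) * sg (b 0 / 2 ^ k % 2) *
      pr (fun l => b (l + 1)) k n (b 0 / 2 ^ k) := by
  unfold pr
  rw [V_succ, V_succ]
  set C := b 0 % 2 ^ k with hCd
  set B := b 0 / 2 ^ k with hBd
  have h0 : b 0 = C + 2 ^ k * B := (Nat.mod_add_div (b 0) (2 ^ k)).symm
  have hB : B = 2 * (B / 2) + B % 2 := by omega
  set Y := V (fun l => b (l + 1)) k n
  set Z := V (fun l => b (l + 1)) (k + 1) n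
  have e1 : β + (b 0 + 2 ^ k * Y) = 2 ^ k * (B + Y) + (β + C) := by
    rw [h0]; ring
  have e2 : β / 2 + (b 0 + 2 ^ (k + 1) * Z) =
      2 ^ (k + 1) * (B / 2 + Z) + (2 ^ k * (B % 2) + (β / 2 + C)) := by
    rw [h0]
    calc β / 2 + (C + 2 ^ k * B + 2 ^ (k + 1) * Z)
        = β / 2 + (C + 2 ^ k * (2 * (B / 2) + B % 2) + 2 ^ (k + 1) * Z) := by rw [← hB]
      _ = _ := by ring
  have hβ2 : β / 2 ≤ β := Nat.div_le_self _ _
  have h3 : 2 ^ k * (B % 2) + (β / 2 + C) < 2 ^ (k + 1) := by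
    have h4 : 2 ^ k * (B % 2) ≤ 2 ^ k * 1 := Nat.mul_le_mul_left _ (by omega)
    rw [pow_succ]
    omega
  rw [e1, e2, sg_split k _ _ (by omega), sg_split (k + 1) _ _ h3, sg_split k _ _ (by omega)]
  ring

theorem mod_mod_two (b w k : ℕ) (hwk : w ≤ k) : b % 2 ^ k % 2 ^ w = b % 2 ^ w :=
  Nat.mod_mod_of_dvd _ (pow_dvd_pow 2 hwk)

theorem pr_eq (w k : ℕ) (hwk : w ≤ k) (n : ℕ) : ∀ (b b' : ℕ → ℕ) (β : ℕ),
    (∀ i, i ≤ n → b i % 2 ^ w = b' i % 2 ^ w) → (∀ i, i < n → b i / 2 ^ k = b' i / 2 ^ k) →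
    (∀ i, i < n → b i % 2 ^ k + 2 ^ w ≤ 2 ^ k) → (∀ i, i < n → b' i % 2 ^ k + 2 ^ w ≤ 2 ^ k) →
    b 0 % 2 ^ w + β < 2 ^ w → (∀ i, i < n → b (i + 1) % 2 ^ w + b i / 2 ^ k < 2 ^ w) →
    pr b k n β = pr b' k n β := by
  induction n with
  | zero =>
    intro b b' β h1 _ _ _ h5 _
    have h1 := h1 0 le_rfl
    unfold pr
    rw [V_zero, V_zero, V_zero, V_zero, blk0 w (b 0) β h5,
      blk0 w (b' 0) β (by rw [← h1]; exact h5), h1]
  | succ n ih =>
    intro b b' β h1 h2 h3 h4 h5 h6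
    have g1 := h1 0 (by omega)
    have g2 := h2 0 (by omega)
    have g3 := h3 0 (by omega)
    have g4 := h4 0 (by omega)
    have g5 : b' 0 % 2 ^ w + β < 2 ^ w := by rw [← g1]; exact h5
    have hβ : β < 2 ^ w := by omega
    rw [pr_succ w k n b β g3 hβ, pr_succ w k n b' β g4 hβ,
      blk0 w (b 0 % 2 ^ k) β (by rw [mod_mod_two _ _ _ hwk]; exact h5),
      blk0 w (b' 0 % 2 ^ k) β (by rw [mod_mod_two _ _ _ hwk]; exact g5),
      mod_mod_two _ _ _ hwk, mod_mod_two _ _ _ hwk, g1, g2]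
    congr 1
    refine ih (fun l => b (l + 1)) (fun l => b' (l + 1)) _ (fun i hi => h1 _ (by omega))
      (fun i hi => h2 _ (by omega)) (fun i hi => h3 _ (by omega)) (fun i hi => h4 _ (by omega))
      ?_ (fun i hi => h6 _ (by omega))
    have := h6 0 (by omega)
    rwa [g2] at this

/-- The change of the sign under `S + 1` for two residues of `S`. -/
theorem sg_pair (α S S' : ℕ) (h : S % 2 ^ (α + 2) = 2 ^ α - 1)
    (h' : S' % 2 ^ (α + 2) = 2 ^ (α + 1) - 1) :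
    sg (S + 1) * sg S = -(sg (S' + 1) * sg S') := by
  have p1 : 0 < 2 ^ α := by positivity
  have p2 : 2 ^ (α + 1) = 2 * 2 ^ α := by ring
  have p3 : 2 ^ (α + 2) = 4 * 2 ^ α := by ring
  have hone : ∀ T : ℕ, sg (2 ^ T - 1) = (-1) ^ T := fun T => by
    have h1 := sg_compl T 0 (2 ^ T - 1) (by have : 0 < 2 ^ T := by positivity
                                            omega)
    rw [h1, sg_zero, mul_one]
  set q := S / 2 ^ (α + 2) with hq
  set q' := S' / 2 ^ (α + 2) with hq'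
  have e1 : S = 2 ^ (α + 2) * q + (2 ^ α - 1) := by
    have := Nat.div_add_mod S (2 ^ (α + 2))
    rw [h] at this
    exact this.symm
  have e2 : S' = 2 ^ (α + 2) * q' + (2 ^ (α + 1) - 1) := by
    have := Nat.div_add_mod S' (2 ^ (α + 2))
    rw [h'] at this
    exact this.symm
  have f1 : S + 1 = 2 ^ α * (2 ^ 2 * q + 1) := by
    have : 2 ^ α * (2 ^ 2 * q + 1) = 2 ^ (α + 2) * q + 2 ^ α := by ring
    omega
  have f2 : S' + 1 = 2 ^ (α + 1) * (2 ^ 1 * q' + 1) := by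
    have : 2 ^ (α + 1) * (2 ^ 1 * q' + 1) = 2 ^ (α + 2) * q' + 2 ^ (α + 1) := by ring
    omega
  have g1 : sg S = (-1) ^ α * sg q := by
    conv_lhs => rw [e1]
    rw [sg_split (α + 2) q _ (by omega), hone]
  have g2 : sg S' = (-1) ^ (α + 1) * sg q' := by
    conv_lhs => rw [e2]
    rw [sg_split (α + 2) q' _ (by omega), hone]
  rw [g1, g2, f1, f2, sg_two_pow_mul, sg_two_pow_mul, sg_split 2 q 1 (by norm_num),
    sg_split 1 q' 1 (by norm_num), sg_one, pow_succ]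
  have h3 := sg_sq q
  have h4 := sg_sq q'
  linear_combination (-(-1 : ℝ) ^ α) * h3 + ((-1 : ℝ) ^ α) * h4

/-- One block in which the incoming summand carries at scale `k` and not at scale `k + 1`. -/
theorem first (w C β r S : ℕ) (hC : C = 2 ^ w * S + r) (h1 : 2 ^ w ≤ β + r)
    (h2 : β / 2 + r < 2 ^ w) (h3 : β + r < 2 ^ w + 2 ^ w) :
    sg (β + C) * sg (β / 2 + C) =
      sg (β + r - 2 ^ w) * sg (β / 2 + r) * (sg (S + 1) * sg S) := by
  have e1 : β + C = 2 ^ w * (S + 1) + (β + r - 2 ^ w) := by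
    have : 2 ^ w * (S + 1) = 2 ^ w * S + 2 ^ w := by ring
    omega
  have e2 : β / 2 + C = 2 ^ w * S + (β / 2 + r) := by omega
  rw [e1, e2, sg_split w _ _ (by omega), sg_split w _ _ h2]
  ring

theorem pr_flip (w k n : ℕ) (hwk : w ≤ k) (b b' : ℕ → ℕ) (β : ℕ)
    (h1 : ∀ i, i ≤ n + 1 → b i % 2 ^ w = b' i % 2 ^ w)
    (h2 : ∀ i, i ≤ n → b i / 2 ^ k = b' i / 2 ^ k)
    (h3 : ∀ i, i ≤ n → b i % 2 ^ k + 2 ^ w ≤ 2 ^ k)
    (h4 : ∀ i, i ≤ n → b' i % 2 ^ k + 2 ^ w ≤ 2 ^ k)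
    (h5 : 2 ^ w ≤ β + b 0 % 2 ^ w) (h5' : β / 2 + b 0 % 2 ^ w < 2 ^ w) (hβ : β < 2 ^ w)
    (h6 : ∀ i, i ≤ n → b (i + 1) % 2 ^ w + b i / 2 ^ k < 2 ^ w)
    (h7 : sg (b 0 % 2 ^ k / 2 ^ w + 1) * sg (b 0 % 2 ^ k / 2 ^ w) =
      -(sg (b' 0 % 2 ^ k / 2 ^ w + 1) * sg (b' 0 % 2 ^ k / 2 ^ w))) :
    pr b k (n + 1) β = -pr b' k (n + 1) β := by
  have g1 := h1 0 (by omega)
  have g2 := h2 0 (by omega)
  have g3 := h3 0 (by omega)
  have g4 := h4 0 (by omega)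
  have hform : ∀ x : ℕ, x % 2 ^ k = 2 ^ w * (x % 2 ^ k / 2 ^ w) + x % 2 ^ w := fun x => by
    have h9 := Nat.div_add_mod (x % 2 ^ k) (2 ^ w)
    rw [mod_mod_two _ _ _ hwk] at h9
    exact h9.symm
  rw [pr_succ w k n b β g3 hβ, pr_succ w k n b' β g4 hβ,
    first w _ β _ _ (hform (b 0)) h5 h5' (by omega),
    first w _ β _ _ (hform (b' 0)) (by rw [← g1]; exact h5) (by rw [← g1]; exact h5')
      (by rw [← g1]; omega),
    ← g1, ← g2]
  have e3 : pr (fun l => b (l + 1)) k n (b 0 / 2 ^ k) = pr (fun l => b' (l + 1)) k n (b 0 / 2 ^ k) :=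
    pr_eq w k hwk n _ _ _ (fun i hi => h1 _ (by omega)) (fun i hi => h2 _ (by omega))
      (fun i hi => h3 _ (by omega)) (fun i hi => h4 _ (by omega)) (h6 0 (by omega))
      (fun i hi => h6 _ (by omega))
  rw [h7, e3]
  ring

/-- Both scales for a full value. -/
theorem two_scales (c : ℕ → ℕ) (k n : ℕ) :
    sg (V c k (n + 1)) * sg (V c (k + 1) (n + 1)) =
      sg (c 0 % 2 ^ k) * sg (c 0 % 2 ^ (k + 1)) *
        pr (fun l => c (l + 1)) k n (c 0 / 2 ^ k) := by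
  have e1 : ∀ j, sg (V c j (n + 1)) =
      sg (c 0 % 2 ^ j) * sg (c 0 / 2 ^ j + V (fun l => c (l + 1)) j n) := fun j => by
    rw [V_succ]
    have : c 0 + 2 ^ j * V (fun l => c (l + 1)) j n =
        2 ^ j * (c 0 / 2 ^ j + V (fun l => c (l + 1)) j n) + c 0 % 2 ^ j := by
      have := Nat.div_add_mod (c 0) (2 ^ j)
      rw [mul_add]
      omega
    rw [this, sg_split j _ _ (Nat.mod_lt _ (by positivity))]
  rw [e1 k, e1 (k + 1)]
  unfold pr
  have e2 : c 0 / 2 ^ (k + 1) = c 0 / 2 ^ k / 2 := by rw [pow_succ, Nat.div_div_eq_div_mul]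
  rw [e2]
  ring

end Pool.Agent.Lib.MP_8fac0f_nt.OV
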